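import Pool.Agent.Helper69.UX.StB

/-!
# Project UX (MP_e12aa9_pr), module OVL: the overlap sum
-/

set_option autoImplicit false

namespace Pool.Agent.Helper90.UX

open Finset Filter Pool.Agent.Helper82.CN Pool.Agent.Helper11.PV Pool.Agent.Helper69.VX
  Pool.Agent.Helper69.UX

lemma mem_Pt {V : Type} [Fintype V] {P : Finset (Finset V)} :
    P ∈ Pt V ↔ (∀ A ∈ P, A.Nonempty) ∧ (∀ A ∈ P, ∀ B ∈ P, A ≠ B → Disjoint A B) ∧
      ∀ v : V, ∃ A ∈ P, v ∈ A := by
  unfold Pt
  simp only [mem_filter, mem_univ, true_and]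

/-- a class with a big block -/
lemma exists_big {n R : ℕ} {P Q : Finset (Finset (Fin n))} {C : Finset (Fin n)}
    (h : C ∈ bigS R P Q) : ∃ B ∈ Q, R < (C ∩ B).card := by
  unfold bigS at h
  rw [mem_filter] at h
  unfold mxb at h
  have h2 := h.2
  rw [Finset.lt_sup_iff] at h2
  exact h2

lemma le_mxb {n : ℕ} {Q : Finset (Finset (Fin n))} {C B : Finset (Fin n)} (h : B ∈ Q) :
    (C ∩ B).card ≤ mxb Q C := by
  unfold mxb
  exact Finset.le_sup (f := fun B => (C ∩ B).card) h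

/-- there are at least as many classes as big blocks -/
lemma card_bigS_le {n A R : ℕ} {P Q : Finset (Finset (Fin n))} (hP : P ∈ Pt (Fin n))
    (hQA : ∀ B ∈ Q, B.card ≤ A) (hAR : A ≤ 2 * R) : (bigS R P Q).card ≤ Q.card := by
  classical
  choose! F hF1 hF2 using fun C (h : C ∈ bigS R P Q) => exists_big h
  refine Finset.card_le_card_of_injOn F (fun C hC => hF1 C hC) ?_
  intro C hC C' hC' hE
  by_contra hne
  have hC1 : C ∈ P := (mem_filter.mp hC).1
  have hC2 : C' ∈ P := (mem_filter.mp hC').1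
  have hd : Disjoint C C' := (mem_Pt.mp hP).2.1 C hC1 C' hC2 hne
  have h1 := hF2 C hC
  have h2 := hF2 C' hC'
  rw [← hE] at h2
  have h3 : Disjoint (C ∩ F C) (C' ∩ F C) :=
    Finset.disjoint_of_subset_left Finset.inter_subset_left
      (Finset.disjoint_of_subset_right Finset.inter_subset_left hd)
  have h4 : ((C ∩ F C) ∪ (C' ∩ F C)).card ≤ (F C).card := by
    refine Finset.card_le_card ?_
    intro x hx
    rw [mem_union, mem_inter, mem_inter] at hx
    rcases hx with hx | hx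
    · exact hx.2
    · exact hx.2
  rw [Finset.card_union_of_disjoint h3] at h4
  have h5 := hQA (F C) (hF1 C hC)
  omega

lemma mem_fib {V L : Type} [Fintype V] [DecidableEq L] {f : V → L} {i : L} {x : V} :
    x ∈ fib f i ↔ f x = i := by
  unfold fib
  simp

lemma fib_inj {V L : Type} [Fintype V] [DecidableEq L] {f : V → L} {i j : L}
    (hi : (fib f i).Nonempty) (h : fib f i = fib f j) : i = j := by
  obtain ⟨x, hx⟩ := hi
  have h2 := hx
  rw [h, mem_fib] at h2
  rw [mem_fib] at hx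
  rw [← hx, h2]

/-- card of a set in a subtype -/
lemma card_sub {n : ℕ} (U : Finset (Fin n)) (p : Fin n → Prop) [DecidablePred p] :
    ((univ : Finset {x : Fin n // x ∉ U}).filter (fun x => p x.1)).card =
      ((univ : Finset (Fin n)).filter (fun x => p x ∧ x ∉ U)).card := by
  refine Finset.card_bij (fun x _ => x.1) ?_ ?_ ?_
  · intro x hx
    rw [mem_filter] at hx
    rw [mem_filter]
    exact ⟨mem_univ _, hx.2, x.2⟩
  · intro x _ y _ h
    exact Subtype.ext h
  · intro x hx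
    rw [mem_filter] at hx
    exact ⟨⟨x, hx.2.2⟩, by rw [mem_filter]; exact ⟨mem_univ _, hx.2.1⟩, rfl⟩

section core

variable {n A R l : ℕ} {P I : Finset (Finset (Fin n))}

/-- the facts about a labelled partition `f` with big blocks `b` -/
structure Lab (A R l : ℕ) (P I : Finset (Finset (Fin n))) (b : {C // C ∈ I} → Finset (Fin n))
    (f : Fin n → {C // C ∈ I} ⊕ Fin l) : Prop where
  big : ∀ C : {C // C ∈ I}, R < (fib f (Sum.inl C) ∩ C.1).card
  ne : ∀ i : Fin l, (fib f (Sum.inr i)).Nonempty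
  bS : bigS R P (univ.image (fib f)) = I
  eb : ∀ C : {C // C ∈ I}, fib f (Sum.inl C) ∩ C.1 = b C

variable {b : {C // C ∈ I} → Finset (Fin n)} {f : Fin n → {C // C ∈ I} ⊕ Fin l}

lemma Lab.nonempty (h : Lab A R l P I b f) (i : {C // C ∈ I} ⊕ Fin l) : (fib f i).Nonempty := by
  rcases i with C | i
  · have h1 := h.big C
    have h2 : (fib f (Sum.inl C) ∩ C.1).Nonempty := by
      rw [← Finset.card_pos]; omega
    obtain ⟨x, hx⟩ := h2
    exact ⟨x, (mem_inter.mp hx).1⟩
  · exact h.ne i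

lemma Lab.injOn (h : Lab A R l P I b f) :
    Set.InjOn (fib f) ((univ : Finset ({C // C ∈ I} ⊕ Fin l)) : Set ({C // C ∈ I} ⊕ Fin l)) := by
  intro i _ j _ hij
  exact fib_inj (h.nonempty i) hij

lemma Lab.pw_eq (h : Lab A R l P I b f) (g : ℕ → ℝ) :
    pw g (univ.image (fib f)) = ∏ i, g (fib f i).card := by
  unfold pw
  exact Finset.prod_image (fun i _ j _ hij => fib_inj (h.nonempty i) hij)

lemma Lab.sub (h : Lab A R l P I b f) (C : {C // C ∈ I}) : b C ⊆ C.1 := by
  rw [← h.eb C]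
  exact inter_subset_right

lemma Lab.lab (h : Lab A R l P I b f) {C : {C // C ∈ I}} {x : Fin n} (hx : x ∈ b C) :
    f x = Sum.inl C := by
  rw [← h.eb C, mem_inter, mem_fib] at hx
  exact hx.1

lemma Lab.small (h : Lab A R l P I b f) (hCA : ∀ C ∈ P, C.card ≤ A) (hAR : A ≤ 2 * R)
    (hI : I ⊆ P) (C : {C // C ∈ I}) (j : {C // C ∈ I} ⊕ Fin l) (hj : j ≠ Sum.inl C) :
    (C.1 ∩ fib f j).card < (b C).card ∧ (C.1 ∩ fib f j).card ≤ R := by
  have h1 : Disjoint (b C) (C.1 ∩ fib f j) := by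
    rw [Finset.disjoint_left]
    intro x hx hx2
    rw [mem_inter, mem_fib, h.lab hx] at hx2
    exact hj hx2.2.symm
  have h2 : (b C ∪ (C.1 ∩ fib f j)).card ≤ C.1.card := by
    refine Finset.card_le_card ?_
    intro x hx
    rw [mem_union, mem_inter] at hx
    rcases hx with hx | hx
    · exact h.sub C hx
    · exact hx.1
  rw [Finset.card_union_of_disjoint h1] at h2
  have h3 := hCA C.1 (hI C.2)
  have h4 := h.big C
  rw [h.eb C] at h4
  constructor <;> omega

lemma Lab.mxb_eq (h : Lab A R l P I b f) (hCA : ∀ C ∈ P, C.card ≤ A) (hAR : A ≤ 2 * R)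
    (hI : I ⊆ P) (C : {C // C ∈ I}) : mxb (univ.image (fib f)) C.1 = (b C).card := by
  apply le_antisymm
  · unfold mxb
    refine Finset.sup_le ?_
    intro B hB
    rw [mem_image] at hB
    obtain ⟨j, _, rfl⟩ := hB
    by_cases hj : j = Sum.inl C
    · subst hj
      rw [inter_comm, h.eb C]
    · exact (h.small hCA hAR hI C j hj).1.le
  · have h1 := le_mxb (C := C.1) (mem_image_of_mem (fib f) (mem_univ (Sum.inl C)))
    rw [inter_comm, h.eb C] at h1
    exact h1

lemma Lab.ovB_eq (h : Lab A R l P I b f) (hCA : ∀ C ∈ P, C.card ≤ A) (hAR : A ≤ 2 * R)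
    (hI : I ⊆ P) : ovB R P (univ.image (fib f)) = ∑ C : {C // C ∈ I}, (b C).card.choose 2 := by
  unfold ovB
  rw [h.bS, ← Finset.sum_coe_sort I (fun C => (mxb (univ.image (fib f)) C).choose 2)]
  refine Finset.sum_congr rfl fun C _ => ?_
  rw [h.mxb_eq hCA hAR hI C]

lemma Lab.NR_eq (h : Lab A R l P I b f) (hCA : ∀ C ∈ P, C.card ≤ A) (hAR : A ≤ 2 * R)
    (hI : I ⊆ P) : NR R P (univ.image (fib f)) = n - ∑ C : {C // C ∈ I}, (b C).card := by
  unfold NR
  rw [h.bS, ← Finset.sum_coe_sort I (fun C => mxb (univ.image (fib f)) C), Fintype.card_fin]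
  congr 1
  refine Finset.sum_congr rfl fun C _ => ?_
  rw [h.mxb_eq hCA hAR hI C]

lemma disj_b (hP : P ∈ Pt (Fin n)) (hI : I ⊆ P) (hb : ∀ C, b C ⊆ C.1) :
    ∀ C ∈ (univ : Finset {C // C ∈ I}), ∀ C' ∈ (univ : Finset {C // C ∈ I}), C ≠ C' →
      Disjoint (b C) (b C') := by
  intro C _ C' _ hne
  have h1 : C.1 ≠ C'.1 := fun h => hne (Subtype.ext h)
  exact Finset.disjoint_of_subset_left (hb C) (Finset.disjoint_of_subset_right (hb C')
    ((mem_Pt.mp hP).2.1 C.1 (hI C.2) C'.1 (hI C'.2) h1))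

lemma card_U (hP : P ∈ Pt (Fin n)) (hI : I ⊆ P) (hb : ∀ C, b C ⊆ C.1) :
    (univ.biUnion b).card = ∑ C : {C // C ∈ I}, (b C).card :=
  Finset.card_biUnion (disj_b hP hI hb)

lemma sum_b_le (hP : P ∈ Pt (Fin n)) (hI : I ⊆ P) (hb : ∀ C, b C ⊆ C.1) :
    ∑ C : {C // C ∈ I}, (b C).card ≤ n := by
  rw [← card_U hP hI hb]
  exact le_trans (Finset.card_le_univ _) (by rw [Fintype.card_fin])

/-- the small blocks -/
def blk (b : {C // C ∈ I} → Finset (Fin n)) (f : Fin n → {C // C ∈ I} ⊕ Fin l)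
    (i : {C // C ∈ I} ⊕ Fin l) (D : Finset (Fin n)) : Finset (Fin n) :=
  univ.filter (fun x => (f x = i ∧ x ∈ D) ∧ x ∉ univ.biUnion b)

/-- main pair -/
def isMain (i : {C // C ∈ I} ⊕ Fin l) (D : Finset (Fin n)) : Prop :=
  ∃ C : {C // C ∈ I}, i = Sum.inl C ∧ C.1 = D

lemma Lab.blk_main (h : Lab A R l P I b f) {i : {C // C ∈ I} ⊕ Fin l} {D : Finset (Fin n)}
    (hm : isMain i D) : blk b f i D = ∅ := by
  obtain ⟨C, rfl, rfl⟩ := hm
  unfold blk
  rw [Finset.filter_eq_empty_iff]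
  rintro x _ ⟨⟨h1, h2⟩, h3⟩
  apply h3
  rw [mem_biUnion]
  refine ⟨C, mem_univ _, ?_⟩
  rw [← h.eb C, mem_inter, mem_fib]
  exact ⟨h1, h2⟩

lemma Lab.blk_ne (h : Lab A R l P I b f) (hP : P ∈ Pt (Fin n)) (hI : I ⊆ P)
    {i : {C // C ∈ I} ⊕ Fin l} {D : Finset (Fin n)} (hD : D ∈ P)
    (hm : ¬ isMain i D) : blk b f i D = D ∩ fib f i := by
  unfold blk
  ext x
  rw [mem_filter, mem_inter, mem_fib]
  constructor
  · rintro ⟨_, ⟨h1, h2⟩, _⟩
    exact ⟨h2, h1⟩
  · rintro ⟨h2, h1⟩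
    refine ⟨mem_univ _, ⟨h1, h2⟩, ?_⟩
    intro h3
    rw [mem_biUnion] at h3
    obtain ⟨C, _, hC⟩ := h3
    have h4 := h.lab hC
    have h5 := h.sub C hC
    apply hm
    refine ⟨C, by rw [← h1, h4], ?_⟩
    by_contra hne
    exact Finset.disjoint_left.mp ((mem_Pt.mp hP).2.1 C.1 (hI C.2) D hD hne) h5 h2

lemma Lab.blk_le (h : Lab A R l P I b f) (hP : P ∈ Pt (Fin n)) (hCA : ∀ C ∈ P, C.card ≤ A)
    (hAR : A ≤ 2 * R) (hI : I ⊆ P)
    (i : {C // C ∈ I} ⊕ Fin l) {D : Finset (Fin n)} (hD : D ∈ P) : (blk b f i D).card ≤ R := by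
  by_cases hm : isMain i D
  · rw [h.blk_main hm]
    simp
  · rw [h.blk_ne hP hI hD hm]
    by_cases hDI : D ∈ I
    · have h1 : i ≠ Sum.inl ⟨D, hDI⟩ := by
        intro hi
        exact hm ⟨⟨D, hDI⟩, hi, rfl⟩
      exact (h.small hCA hAR hI ⟨D, hDI⟩ i h1).2
    · have h1 : D ∉ bigS R P (univ.image (fib f)) := by rw [h.bS]; exact hDI
      unfold bigS at h1
      rw [mem_filter] at h1
      have h2 : ¬ R < mxb (univ.image (fib f)) D := fun h3 => h1 ⟨hD, h3⟩
      have h3 := le_mxb (C := D) (mem_image_of_mem (fib f) (mem_univ i))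
      omega

lemma Lab.ovl_eq (h : Lab A R l P I b f) (hP : P ∈ Pt (Fin n)) (hI : I ⊆ P) :
    ovl P (univ.image (fib f)) = (∑ i, ∑ D ∈ P, (blk b f i D).card.choose 2) +
      ∑ C : {C // C ∈ I}, (b C).card.choose 2 := by
  classical
  have h0 : ∀ i : {C // C ∈ I} ⊕ Fin l, ∀ D ∈ P, (D ∩ fib f i).card.choose 2 =
      (blk b f i D).card.choose 2 +
        (if isMain i D then (D ∩ fib f i).card.choose 2 else 0) := by
    intro i D hD
    by_cases hm : isMain i D
    · rw [h.blk_main hm, if_pos hm]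
      simp
    · rw [h.blk_ne hP hI hD hm, if_neg hm, add_zero]
  unfold ovl
  have h1 : ∀ D ∈ P, ∑ B ∈ univ.image (fib f), (D ∩ B).card.choose 2 =
      ∑ i, (D ∩ fib f i).card.choose 2 := by
    intro D _
    exact Finset.sum_image (fun i _ j _ hij => fib_inj (h.nonempty i) hij)
  rw [Finset.sum_congr rfl h1, Finset.sum_comm]
  rw [Finset.sum_congr rfl (fun i _ => Finset.sum_congr rfl (fun D hD => h0 i D hD))]
  rw [Finset.sum_congr rfl (fun i _ => Finset.sum_add_distrib), Finset.sum_add_distrib]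
  congr 1
  rw [Fintype.sum_sum_type]
  have h2 : ∑ j : Fin l, ∑ D ∈ P, (if isMain (Sum.inr j : {C // C ∈ I} ⊕ Fin l) D then
      (D ∩ fib f (Sum.inr j)).card.choose 2 else 0) = 0 := by
    refine Finset.sum_eq_zero fun j _ => Finset.sum_eq_zero fun D _ => ?_
    rw [if_neg]
    rintro ⟨C, hC, _⟩
    exact absurd hC (by simp)
  rw [h2, add_zero]
  refine Finset.sum_congr rfl fun C _ => ?_
  rw [Finset.sum_eq_single_of_mem C.1 (hI C.2)]
  · rw [if_pos ⟨C, rfl, rfl⟩, inter_comm, h.eb C]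
  · intro D hD hne
    rw [if_neg]
    rintro ⟨C', hC', rfl⟩
    exact hne (by rw [Sum.inl.inj hC'])

/-- size of a class -/
lemma Lab.card_fib (h : Lab A R l P I b f) (i : {C // C ∈ I} ⊕ Fin l) :
    (fib f i).card = ((univ : Finset (Fin n)).filter
      (fun x => f x = i ∧ x ∉ univ.biUnion b)).card + Sum.elim (fun C => (b C).card) (fun _ => 0) i := by
  classical
  have h1 : (fib f i).card = ((univ : Finset (Fin n)).filter
      (fun x => f x = i ∧ x ∉ univ.biUnion b)).card +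
      ((univ : Finset (Fin n)).filter (fun x => f x = i ∧ x ∈ univ.biUnion b)).card := by
    unfold fib
    rw [← Finset.card_union_of_disjoint]
    · congr 1
      ext x
      simp only [mem_filter, mem_union, mem_univ, true_and]
      tauto
    · rw [Finset.disjoint_left]
      intro x hx hx2
      exact (mem_filter.mp hx).2.2 (mem_filter.mp hx2).2.2
  rw [h1]
  congr 1
  rcases i with C | i
  · simp only [Sum.elim_inl]
    congr 1
    ext x
    rw [mem_filter, mem_biUnion]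
    constructor
    · rintro ⟨_, h2, C', _, hC'⟩
      have h3 := h.lab hC'
      rw [h2] at h3
      rw [Sum.inl.inj h3]
      exact hC'
    · intro hx
      exact ⟨mem_univ _, h.lab hx, C, mem_univ _, hx⟩
  · simp only [Sum.elim_inr]
    rw [Finset.card_eq_zero, Finset.filter_eq_empty_iff]
    rintro x _ ⟨h2, h3⟩
    rw [mem_biUnion] at h3
    obtain ⟨C', _, hC'⟩ := h3
    have h4 := h.lab hC'
    rw [h2] at h4
    exact absurd h4 (by simp)

/-- the weights -/
def Gw (g : ℕ → ℝ) (b : {C // C ∈ I} → Finset (Fin n)) (i : {C // C ∈ I} ⊕ Fin l) (v : ℕ) : ℝ :=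
  g (v + Sum.elim (fun C => (b C).card) (fun _ => 0) i)

/-- the restriction -/
def rst (b : {C // C ∈ I} → Finset (Fin n)) (f : Fin n → {C // C ∈ I} ⊕ Fin l) :
    {x : Fin n // x ∉ univ.biUnion b} → {C // C ∈ I} ⊕ Fin l := fun x => f x.1

/-- the cells -/
def cel (b : {C // C ∈ I} → Finset (Fin n)) (D : {D // D ∈ P}) :
    Finset {x : Fin n // x ∉ univ.biUnion b} := univ.filter (fun x => x.1 ∈ D.1)

lemma card_rst (b : {C // C ∈ I} → Finset (Fin n)) (f : Fin n → {C // C ∈ I} ⊕ Fin l)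
    (i : {C // C ∈ I} ⊕ Fin l) : (fib (rst b f) i).card = ((univ : Finset (Fin n)).filter
      (fun x => f x = i ∧ x ∉ univ.biUnion b)).card := by
  unfold fib rst
  exact card_sub (univ.biUnion b) (fun x => f x = i)

lemma card_rst_cel (b : {C // C ∈ I} → Finset (Fin n)) (f : Fin n → {C // C ∈ I} ⊕ Fin l)
    (i : {C // C ∈ I} ⊕ Fin l) (D : {D // D ∈ P}) :
    (fib (rst b f) i ∩ cel b D).card = (blk b f i D.1).card := by
  unfold blk
  rw [← card_sub (univ.biUnion b) (fun x => f x = i ∧ x ∈ D.1)]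
  congr 1
  ext x
  unfold cel
  simp only [mem_inter, mem_fib, mem_filter, mem_univ, true_and]
  rfl

lemma Lab.term_eq (h : Lab A R l P I b f) (hP : P ∈ Pt (Fin n)) (hCA : ∀ C ∈ P, C.card ≤ A)
    (hAR : A ≤ 2 * R) (hI : I ⊆ P) (g : ℕ → ℝ) (w ws : ℝ) :
    pw g (univ.image (fib f)) * w ^ ovB R P (univ.image (fib f)) *
      ws ^ (ovl P (univ.image (fib f)) - ovB R P (univ.image (fib f))) =
    (∏ C : {C // C ∈ I}, w ^ ((b C).card.choose 2)) *
      ∏ i, (Gw g b i (fib (rst b f) i).card *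
        ∏ D : {D // D ∈ P}, hh R ws (fib (rst b f) i ∩ cel b D).card) := by
  rw [h.pw_eq g, h.ovl_eq hP hI, h.ovB_eq hCA hAR hI, Nat.add_sub_cancel,
    Finset.prod_mul_distrib]
  have h1 : ∏ i, Gw g b i (fib (rst b f) i).card = ∏ i, g (fib f i).card := by
    refine Finset.prod_congr rfl fun i _ => ?_
    unfold Gw
    rw [card_rst, ← h.card_fib i]
  have h2 : ∏ i, ∏ D : {D // D ∈ P}, hh R ws (fib (rst b f) i ∩ cel b D).card =
      ws ^ (∑ i, ∑ D ∈ P, (blk b f i D).card.choose 2) := by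
    rw [← Finset.prod_pow_eq_pow_sum]
    refine Finset.prod_congr rfl fun i _ => ?_
    rw [← Finset.prod_pow_eq_pow_sum, ← Finset.prod_coe_sort P]
    refine Finset.prod_congr rfl fun D _ => ?_
    rw [card_rst_cel]
    unfold hh
    rw [if_pos (h.blk_le hP hCA hAR hI i D.2)]
  rw [h1, h2, Finset.prod_pow_eq_pow_sum]
  ring

lemma rst_inj {F : Finset (Fin n → {C // C ∈ I} ⊕ Fin l)} (hF : ∀ f ∈ F, Lab A R l P I b f) :
    Set.InjOn (rst b) (F : Set (Fin n → {C // C ∈ I} ⊕ Fin l)) := by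
  intro f hf f' hf' he
  funext x
  by_cases hx : x ∈ univ.biUnion b
  · rw [mem_biUnion] at hx
    obtain ⟨C, _, hC⟩ := hx
    rw [(hF f hf).lab hC, (hF f' hf').lab hC]
  · exact congrFun he ⟨x, hx⟩

lemma hh_nonneg {R : ℕ} {ws : ℝ} (h : 0 ≤ ws) (r : ℕ) : 0 ≤ hh R ws r := by
  unfold hh
  split_ifs
  · exact pow_nonneg h _
  · exact le_rfl

/-- the sum for fixed big blocks -/
lemma fixed_b (hMAP : StMAP) {N : ℕ} (hP : P ∈ Pt (Fin n)) (hCA : ∀ C ∈ P, C.card ≤ A)
    (hAR : A ≤ 2 * R) (hI : I ⊆ P) (hN1 : 1 ≤ N) (hNn : N ≤ n) {g : ℕ → ℝ} (hg : ∀ v, 0 ≤ g v)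
    (hgA : ∀ v, A < v → g v = 0) {w ws : ℝ} (hw : 1 ≤ w) (hws : w ≤ ws)
    (hb : ∀ C, b C ⊆ C.1) (hsum : ∑ C : {C // C ∈ I}, (b C).card = n - N)
    (F : Finset (Fin n → {C // C ∈ I} ⊕ Fin l)) (hF : ∀ f ∈ F, Lab A R l P I b f) :
    ∑ f ∈ F, pw g (univ.image (fib f)) * w ^ ovB R P (univ.image (fib f)) *
      ws ^ (ovl P (univ.image (fib f)) - ovB R P (univ.image (fib f))) ≤
    (∏ C : {C // C ∈ I}, w ^ ((b C).card.choose 2)) * ((N.factorial : ℝ) *
      Real.exp (GG A R N ws) * ((∏ C : {C // C ∈ I}, ∑ v ∈ range (A + 1),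
        g (v + (b C).card) / (v.factorial : ℝ)) *
          (∑ v ∈ range (A + 1), g v / (v.factorial : ℝ)) ^ l)) := by
  classical
  have hws1 : 1 ≤ ws := hw.trans hws
  have hcard : Fintype.card {x : Fin n // x ∉ univ.biUnion b} = N := by
    rw [Fintype.card_subtype_compl]
    rw [Fintype.card_fin, Fintype.card_coe, card_U hP hI hb, hsum]
    omega
  have hm := hMAP {x : Fin n // x ∉ univ.biUnion b} ({C // C ∈ I} ⊕ Fin l) {D // D ∈ P} A R ws
    (cel b) (Gw g b) (by rw [hcard]; exact hN1) hws1 ?_ ?_ ?_ ?_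
  · rw [hcard] at hm
    rw [Finset.sum_congr rfl (fun f hf => (hF f hf).term_eq hP hCA hAR hI g w ws), ← Finset.mul_sum]
    refine mul_le_mul_of_nonneg_left ?_ (Finset.prod_nonneg fun C _ => pow_nonneg (by linarith) _)
    rw [Fintype.prod_sum_type] at hm
    simp only [Gw, Sum.elim_inl, Sum.elim_inr, add_zero, Finset.prod_const, Finset.card_univ,
      Fintype.card_fin] at hm
    refine le_trans ?_ hm
    simp only [Gw]
    rw [← Finset.sum_image (s := F) (g := rst b) (f := fun f' : {x : Fin n // x ∉ univ.biUnion b} →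
      {C // C ∈ I} ⊕ Fin l => ∏ i, (g ((fib f' i).card +
        Sum.elim (fun C => (b C).card) (fun _ => 0) i) *
        ∏ D : {D // D ∈ P}, hh R ws (fib f' i ∩ cel b D).card)) (rst_inj hF)]
    refine Finset.sum_le_sum_of_subset_of_nonneg (Finset.subset_univ _) ?_
    intro f' _ _
    exact Finset.prod_nonneg fun i _ => mul_nonneg (hg _) (Finset.prod_nonneg fun D _ =>
      hh_nonneg (by linarith) _)
  · intro D D' hne
    rw [Finset.disjoint_left]
    intro x hx hx'
    unfold cel at hx hx'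
    rw [mem_filter] at hx hx'
    exact Finset.disjoint_left.mp ((mem_Pt.mp hP).2.1 D.1 D.2 D'.1 D'.2
      (fun h => hne (Subtype.ext h))) hx.2 hx'.2
  · intro D
    unfold cel
    rw [card_sub (univ.biUnion b) (fun x => x ∈ D.1)]
    refine le_trans (Finset.card_le_card ?_) (hCA D.1 D.2)
    intro x hx
    exact (mem_filter.mp hx).2.1
  · intro i v
    exact hg _
  · intro i v hv
    exact hgA _ (by omega)

end core

/-- reindexing -/
lemma sum_shift {A : ℕ} {g : ℕ → ℝ} (hgA : ∀ v, A < v → g v = 0) (r : ℕ) :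
    ∑ v ∈ range (A + 1), g (v + r) / (v.factorial : ℝ) =
      ∑ v ∈ Icc r A, g v / ((v - r).factorial : ℝ) := by
  have h1 : ∑ v ∈ Ico r (A + 1 + r), g v / ((v - r).factorial : ℝ) =
      ∑ v ∈ range (A + 1), g (v + r) / (v.factorial : ℝ) := by
    rw [Finset.sum_Ico_eq_sum_range, Nat.add_sub_cancel]
    refine Finset.sum_congr rfl fun v _ => ?_
    rw [Nat.add_sub_cancel_left, add_comm r v]
  rw [← h1]
  symm
  refine Finset.sum_subset ?_ ?_
  · intro v hv
    rw [mem_Icc] at hv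
    rw [mem_Ico]
    omega
  · intro v hv hv2
    rw [mem_Ico] at hv
    rw [mem_Icc] at hv2
    rw [hgA v (by omega), zero_div]

/-- sum over the big blocks of one class -/
lemma sum_blocks {n : ℕ} (R : ℕ) (C : Finset (Fin n)) (h : ℕ → ℝ) :
    ∑ B ∈ C.powerset.filter (fun B => R < B.card), h B.card =
      ∑ r ∈ Ioc R C.card, (C.card.choose r : ℝ) * h r := by
  rw [Finset.sum_filter, Finset.sum_powerset_apply_card (fun m => if R < m then h m else 0)]
  symm
  have h1 : ∑ r ∈ Ioc R C.card, (C.card.choose r : ℝ) * h r =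
      ∑ r ∈ Ioc R C.card, C.card.choose r • (if R < r then h r else 0) := by
    refine Finset.sum_congr rfl fun r hr => ?_
    rw [if_pos (mem_Ioc.mp hr).1, nsmul_eq_mul]
  rw [h1]
  refine Finset.sum_subset ?_ ?_
  · intro r hr
    rw [mem_Ioc] at hr
    rw [mem_range]
    omega
  · intro r hr hr2
    rw [mem_range] at hr
    rw [mem_Ioc] at hr2
    rw [if_neg (by omega), smul_zero]

/-- the value of a partition -/
noncomputable def vl {n : ℕ} (R : ℕ) (g : ℕ → ℝ) (w ws : ℝ) (P Q : Finset (Finset (Fin n))) : ℝ :=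
  pw g Q * w ^ ovB R P Q * ws ^ (ovl P Q - ovB R P Q)

lemma vl_nonneg {n R : ℕ} {g : ℕ → ℝ} {w ws : ℝ} (hg : ∀ v, 0 ≤ g v) (hw : 0 ≤ w) (hws : 0 ≤ ws)
    (P Q : Finset (Finset (Fin n))) : 0 ≤ vl R g w ws P Q := by
  unfold vl pw
  exact mul_nonneg (mul_nonneg (Finset.prod_nonneg fun _ _ => hg _) (pow_nonneg hw _))
    (pow_nonneg hws _)

/-- the factor of a class -/
noncomputable def fac (A R : ℕ) (g : ℕ → ℝ) (w z : ℝ) (c : ℕ) : ℝ :=
  ∑ r ∈ Ioc R c, (c.choose r : ℝ) * w ^ (r.choose 2) / z ^ r *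
    ∑ v ∈ Icc r A, g v / ((v - r).factorial : ℝ)

/-- the sum for fixed number of classes -/
lemma fixed_l (hMAP : StMAP) (hLBS : StLBS) {n A R N : ℕ} (l : ℕ) {P I : Finset (Finset (Fin n))}
    (hP : P ∈ Pt (Fin n)) (hI : I ⊆ P) (hCA : ∀ C ∈ P, C.card ≤ A)
    (hAR : A ≤ 2 * R) (hN1 : 1 ≤ N) (hNn : N ≤ n) {g : ℕ → ℝ} (hg : ∀ v, 0 ≤ g v)
    (hgA : ∀ v, A < v → g v = 0) {w ws z : ℝ} (hw : 1 ≤ w) (hws : w ≤ ws) (hz : 0 < z) :
    (l.factorial : ℝ) * ∑ Q ∈ (Pt (Fin n)).filter (fun Q => (∀ B ∈ Q, B.card ≤ A) ∧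
      bigS R P Q = I ∧ Q.card = I.card + l), (if NR R P Q = N then vl R g w ws P Q else 0) ≤
    (N.factorial : ℝ) * Real.exp (GG A R N ws) * z ^ (n - N) * (∏ C ∈ I, fac A R g w z C.card) *
      (∑ v ∈ range (A + 1), g v / (v.factorial : ℝ)) ^ l := by
  classical
  have hS0 : 0 ≤ ∑ v ∈ range (A + 1), g v / (v.factorial : ℝ) :=
    Finset.sum_nonneg fun v _ => div_nonneg (hg v) (Nat.cast_nonneg _)
  refine le_trans (hLBS n A R l P I (fun Q => if NR R P Q = N then vl R g w ws P Q else 0)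
    hP hI hCA hAR ?_) ?_
  · intro Q
    split_ifs
    · exact vl_nonneg hg (by linarith) (by linarith) P Q
    · exact le_rfl
  · rw [← Finset.sum_filter, Finset.filter_filter]
    set F := (univ : Finset (Fin n → {C // C ∈ I} ⊕ Fin l)).filter
      (fun f => ((∀ C : {C // C ∈ I}, R < (fib f (Sum.inl C) ∩ C.1).card) ∧
        (∀ i : Fin l, (fib f (Sum.inr i)).Nonempty) ∧
        (univ.image (fib f) ∈ Pt (Fin n) ∧ bigS R P (univ.image (fib f)) = I)) ∧
        NR R P (univ.image (fib f)) = N) with hFdef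
    have hFmem : ∀ f ∈ F, ((∀ C : {C // C ∈ I}, R < (fib f (Sum.inl C) ∩ C.1).card) ∧
        (∀ i : Fin l, (fib f (Sum.inr i)).Nonempty) ∧
        (univ.image (fib f) ∈ Pt (Fin n) ∧ bigS R P (univ.image (fib f)) = I)) ∧
        NR R P (univ.image (fib f)) = N := by
      intro f hf
      rw [hFdef, mem_filter] at hf
      exact hf.2
    set be : (Fin n → {C // C ∈ I} ⊕ Fin l) → ({C // C ∈ I} → Finset (Fin n)) :=
      fun f C => fib f (Sum.inl C) ∩ C.1 with hbe
    set B0 : Finset ({C // C ∈ I} → Finset (Fin n)) :=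
      Fintype.piFinset (fun C : {C // C ∈ I} => C.1.powerset.filter (fun B => R < B.card)) with hB0
    set BB := B0.filter (fun b => ∑ C : {C // C ∈ I}, (b C).card = n - N) with hBB
    have hLab : ∀ f ∈ F, Lab A R l P I (be f) f := by
      intro f hf
      have h := hFmem f hf
      exact ⟨h.1.1, h.1.2.1, h.1.2.2.2, fun C => rfl⟩
    have hmaps : ∀ f ∈ F, be f ∈ BB := by
      intro f hf
      rw [hBB, mem_filter, hB0, Fintype.mem_piFinset]
      constructor
      · intro C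
        rw [mem_filter, mem_powerset]
        exact ⟨inter_subset_right, (hFmem f hf).1.1 C⟩
      · have h1 := (hLab f hf).NR_eq hCA hAR hI
        rw [(hFmem f hf).2] at h1
        have h2 := sum_b_le hP hI (hLab f hf).sub
        omega
    rw [← Finset.sum_fiberwise_of_maps_to hmaps]
    have hfix : ∀ b ∈ BB, ∑ f ∈ F.filter (fun f => be f = b), vl R g w ws P (univ.image (fib f)) ≤
        (∏ C : {C // C ∈ I}, w ^ ((b C).card.choose 2)) * ((N.factorial : ℝ) *
      Real.exp (GG A R N ws) * ((∏ C : {C // C ∈ I}, ∑ v ∈ range (A + 1),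
        g (v + (b C).card) / (v.factorial : ℝ)) *
          (∑ v ∈ range (A + 1), g v / (v.factorial : ℝ)) ^ l)) := by
      intro b hb
      rw [hBB, mem_filter, hB0, Fintype.mem_piFinset] at hb
      refine fixed_b hMAP hP hCA hAR hI hN1 hNn hg hgA hw hws
        (fun C => mem_powerset.mp (mem_filter.mp (hb.1 C)).1) hb.2 _ ?_
      intro f hf
      rw [mem_filter] at hf
      rw [← hf.2]
      exact hLab f hf.1
    refine le_trans (Finset.sum_le_sum hfix) ?_
    have hterm : ∀ b ∈ BB, (∏ C : {C // C ∈ I}, w ^ ((b C).card.choose 2)) * ((N.factorial : ℝ) *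
      Real.exp (GG A R N ws) * ((∏ C : {C // C ∈ I}, ∑ v ∈ range (A + 1),
        g (v + (b C).card) / (v.factorial : ℝ)) *
          (∑ v ∈ range (A + 1), g v / (v.factorial : ℝ)) ^ l)) =
        (N.factorial : ℝ) * Real.exp (GG A R N ws) * z ^ (n - N) *
          (∑ v ∈ range (A + 1), g v / (v.factorial : ℝ)) ^ l *
          ∏ C : {C // C ∈ I}, (w ^ ((b C).card.choose 2) / z ^ (b C).card *
            ∑ v ∈ Icc (b C).card A, g v / ((v - (b C).card).factorial : ℝ)) := by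
      intro b hb
      rw [hBB, mem_filter] at hb
      rw [Finset.prod_mul_distrib, Finset.prod_div_distrib, Finset.prod_pow_eq_pow_sum _ _ z,
        hb.2]
      have h1 : ∀ C : {C // C ∈ I}, ∑ v ∈ range (A + 1), g (v + (b C).card) / (v.factorial : ℝ) =
          ∑ v ∈ Icc (b C).card A, g v / ((v - (b C).card).factorial : ℝ) :=
        fun C => sum_shift hgA _
      simp only [h1]
      have hz2 : z ^ (n - N) ≠ 0 := pow_ne_zero _ hz.ne'
      field_simp
    rw [Finset.sum_congr rfl hterm, ← Finset.mul_sum]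
    have hfin : ∑ b ∈ BB, ∏ C : {C // C ∈ I}, (w ^ ((b C).card.choose 2) / z ^ (b C).card *
            ∑ v ∈ Icc (b C).card A, g v / ((v - (b C).card).factorial : ℝ)) ≤
        ∏ C ∈ I, fac A R g w z C.card := by
      refine le_trans (Finset.sum_le_sum_of_subset_of_nonneg (Finset.filter_subset _ B0) ?_) ?_
      · intro b _ _
        refine Finset.prod_nonneg fun C _ => mul_nonneg (div_nonneg (pow_nonneg (by linarith) _)
          (pow_nonneg hz.le _)) (Finset.sum_nonneg fun v _ => div_nonneg (hg v) (Nat.cast_nonneg _))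
      · rw [hB0, ← Finset.prod_univ_sum (fun C : {C // C ∈ I} => C.1.powerset.filter
          (fun B => R < B.card)) (fun _ B => (w ^ (B.card.choose 2) / z ^ B.card *
            ∑ v ∈ Icc B.card A, g v / ((v - B.card).factorial : ℝ))),
          ← Finset.prod_coe_sort I]
        refine le_of_eq (Finset.prod_congr rfl fun C _ => ?_)
        rw [sum_blocks R C.1 (fun r => w ^ (r.choose 2) / z ^ r *
            ∑ v ∈ Icc r A, g v / ((v - r).factorial : ℝ))]
        unfold fac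
        refine Finset.sum_congr rfl fun r _ => ?_
        ring
    refine le_trans (mul_le_mul_of_nonneg_left hfin ?_) (le_of_eq (by ring))
    exact mul_nonneg (mul_nonneg (mul_nonneg (Nat.cast_nonneg _) (Real.exp_nonneg _))
      (pow_nonneg hz.le _)) (pow_nonneg hS0 _)

theorem hOVL (hMAP : StMAP) (hLBS : StLBS) : StOVL := by
  classical
  intro n A R N g w ws z P I hP hI hCA hAR hN1 hNn hg _hg0 hgA hw hws hz
  have hS0 : 0 ≤ ∑ v ∈ range (A + 1), g v / (v.factorial : ℝ) :=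
    Finset.sum_nonneg fun v _ => div_nonneg (hg v) (Nat.cast_nonneg _)
  set S0 := ∑ v ∈ range (A + 1), g v / (v.factorial : ℝ) with hS0def
  set M := Fintype.card (Finset (Fin n)) with hM
  set K := (N.factorial : ℝ) * Real.exp (GG A R N ws) * z ^ (n - N) *
    (∏ C ∈ I, fac A R g w z C.card) with hK
  have hfac : ∀ c, 0 ≤ fac A R g w z c := by
    intro c
    unfold fac
    refine Finset.sum_nonneg fun r _ => mul_nonneg (div_nonneg (mul_nonneg (Nat.cast_nonneg _)
      (pow_nonneg (by linarith) _)) (pow_nonneg hz.le _)) (Finset.sum_nonneg fun v _ =>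
        div_nonneg (hg v) (Nat.cast_nonneg _))
  have hK0 : 0 ≤ K := by
    rw [hK]
    exact mul_nonneg (mul_nonneg (mul_nonneg (Nat.cast_nonneg _) (Real.exp_nonneg _))
      (pow_nonneg hz.le _)) (Finset.prod_nonneg fun C _ => hfac _)
  set X := (Pt (Fin n)).filter (fun Q => bigS R P Q = I ∧ NR R P Q = N) with hX
  set Y := (Pt (Fin n)).filter (fun Q => (∀ B ∈ Q, B.card ≤ A) ∧ bigS R P Q = I ∧ NR R P Q = N)
    with hY
  have h1 : ∑ Q ∈ X, vl R g w ws P Q = ∑ Q ∈ Y, vl R g w ws P Q := by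
    symm
    refine Finset.sum_subset ?_ ?_
    · intro Q hQ
      rw [hY, mem_filter] at hQ
      rw [hX, mem_filter]
      exact ⟨hQ.1, hQ.2.2⟩
    · intro Q hQ hQ2
      rw [hX, mem_filter] at hQ
      have h2 : ¬ ∀ B ∈ Q, B.card ≤ A := by
        intro h
        apply hQ2
        rw [hY, mem_filter]
        exact ⟨hQ.1, h, hQ.2⟩
      push Not at h2
      obtain ⟨B, hB, hBA⟩ := h2
      unfold vl pw
      rw [Finset.prod_eq_zero hB (hgA _ hBA), zero_mul, zero_mul]
  have h2 : ∀ Q ∈ Y, Q.card - I.card ∈ range (M + 1) := by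
    intro Q _
    rw [mem_range]
    have : Q.card ≤ M := Finset.card_le_univ Q
    omega
  have h3 : ∀ l ∈ range (M + 1), ∑ Q ∈ Y.filter (fun Q => Q.card - I.card = l),
      vl R g w ws P Q ≤ K * (S0 ^ l / (l.factorial : ℝ)) := by
    intro l _
    have h4 := fixed_l hMAP hLBS l hP hI hCA hAR hN1 hNn hg hgA hw hws hz
    rw [← hS0def, ← hK] at h4
    have h5 : ∑ Q ∈ Y.filter (fun Q => Q.card - I.card = l), vl R g w ws P Q ≤
        ∑ Q ∈ (Pt (Fin n)).filter (fun Q => (∀ B ∈ Q, B.card ≤ A) ∧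
      bigS R P Q = I ∧ Q.card = I.card + l), (if NR R P Q = N then vl R g w ws P Q else 0) := by
      rw [← Finset.sum_filter]
      refine Finset.sum_le_sum_of_subset_of_nonneg ?_ ?_
      · intro Q hQ
        rw [mem_filter, hY, mem_filter] at hQ
        rw [mem_filter, mem_filter]
        have h6 := card_bigS_le hP hQ.1.2.1 hAR
        rw [hQ.1.2.2.1] at h6
        exact ⟨⟨hQ.1.1, hQ.1.2.1, hQ.1.2.2.1, by have := hQ.2; omega⟩, hQ.1.2.2.2⟩
      · intro Q _ _
        exact vl_nonneg hg (by linarith) (by linarith) P Q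
    have h6 : (0 : ℝ) < (l.factorial : ℝ) := by exact_mod_cast l.factorial_pos
    rw [← mul_div_assoc, le_div_iff₀ h6, mul_comm]
    exact le_trans (mul_le_mul_of_nonneg_left h5 h6.le) h4
  have h7 : ∑ Q ∈ X, vl R g w ws P Q ≤ K * Real.exp S0 := by
    rw [h1, ← Finset.sum_fiberwise_of_maps_to h2]
    refine le_trans (Finset.sum_le_sum h3) ?_
    rw [← Finset.mul_sum]
    exact mul_le_mul_of_nonneg_left (Real.sum_le_exp_of_nonneg hS0 _) hK0
  refine le_trans h7 (le_of_eq ?_)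
  rw [hK, Real.exp_add]
  unfold fac
  ring

end Pool.Agent.Helper90.UX
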